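import Mathlib
import Pool.Agent.R363.PG.Final

/-!
# MP_c355a0_ag: Hilbert series of powers of `n + 1` general forms, the answer to Q1 is no

`n = 73`, `d = 2`: for every choice of 74 quadratic forms in 73 variables and every `k ≥ 1`
the algebra `S / (f_1, ..., f_74)^k` is nonzero in degree `2 k + 1`.
-/

open MvPolynomial

namespace Pool.Agent.Results.MP_c355a0_ag.LongFibres

/-- The coefficient of `t ^ i` in the Hilbert series of `S / J`, where `S = ℂ[x_1, ..., x_n]` and
`J` is a homogeneous ideal: the dimension of `S_i / (J ∩ S_i)`. -/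
noncomputable def hilb (n : ℕ) (J : Ideal (MvPolynomial (Fin n) ℂ)) (i : ℕ) : ℕ :=
  Module.finrank ℂ (homogeneousSubmodule (Fin n) ℂ i ⧸
    (Submodule.restrictScalars ℂ J).comap (homogeneousSubmodule (Fin n) ℂ i).subtype)

/-- The coefficient of `t ^ i` in the polynomial `H_{n,d,k}(t)` (used for `k ≥ d ^ (n - 1)`). -/
def Hcoeff (n d k i : ℕ) : ℤ :=
  if i < d * k then ((i + n - 1).choose (n - 1) : ℤ)
  else if i = d * k then
    ((d * k + n - 1).choose (n - 1) : ℤ) - ((k + n).choose n : ℤ) +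
      ((k - d ^ (n - 1) + n).choose n : ℤ)
  else 0

/-- The degree-wise formula predicted for `n + 1` general forms of degree `d` holds for at least
one tuple of forms of degree `d`. -/
def PredictedForSome (n d k : ℕ) : Prop :=
  ∃ f : Fin (n + 1) → MvPolynomial (Fin n) ℂ, (∀ j, (f j).IsHomogeneous d) ∧
    ∀ i, (hilb n (Ideal.span (Set.range f) ^ k) i : ℤ) = Hcoeff n d k i

theorem hilb_pos (f : Fin 74 → MvPolynomial (Fin 73) ℂ) (hf : ∀ j, (f j).IsHomogeneous 2)
    (k : ℕ) (hk : 1 ≤ k) : 0 < hilb 73 (Ideal.span (Set.range f) ^ k) (2 * k + 1) := by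
  have hbad := Pool.Agent.R363.PG.all_bad_fin f hf k hk
  haveI : Module.Finite ℂ (homogeneousSubmodule (Fin 73) ℂ (2 * k + 1)) :=
    Module.Finite.iff_fg.2 (homogeneousSubmodule_fg (Fin 73) ℂ (2 * k + 1))
  unfold hilb
  rw [Module.finrank_pos_iff, Submodule.Quotient.nontrivial_iff]
  intro htop
  apply hbad
  intro p hp
  have h1 : (⟨p, hp⟩ : homogeneousSubmodule (Fin 73) ℂ (2 * k + 1)) ∈
      (Submodule.restrictScalars ℂ (Ideal.span (Set.range f) ^ k)).comap
        (homogeneousSubmodule (Fin 73) ℂ (2 * k + 1)).subtype := by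
    rw [htop]
    trivial
  exact h1

/-- **The answer to Q1 is no.** For `n = 73` and `d = 2`, every tuple of 74 quadratic forms (in
particular a general one) and every `k ≥ 1`, the algebra `S / (f_1, ..., f_74)^k` is nonzero in
degree `2 k + 1 > d k`. So for every `k ≥ 2 ^ 72 = d ^ (n - 1)` the Hilbert series differs from
`H_{73,2,k}` for every tuple of quadratic forms. -/
theorem result :
    (∀ k : ℕ, 1 ≤ k → ∀ f : Fin 74 → MvPolynomial (Fin 73) ℂ, (∀ j, (f j).IsHomogeneous 2) →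
      0 < hilb 73 (Ideal.span (Set.range f) ^ k) (2 * k + 1)) ∧
    (∀ k : ℕ, 2 ^ (73 - 1) ≤ k → ∀ f : Fin (73 + 1) → MvPolynomial (Fin 73) ℂ,
      (∀ j, (f j).IsHomogeneous 2) →
      (fun i => (hilb 73 (Ideal.span (Set.range f) ^ k) i : ℤ)) ≠ Hcoeff 73 2 k) ∧
    ¬ (∀ n d k : ℕ, 1 ≤ n → 1 ≤ d → 1 ≤ k → d ^ (n - 1) ≤ k → (d, n) ≠ (2, 2) →
      PredictedForSome n d k) := by
  have h2 : ∀ k : ℕ, 1 ≤ k → ∀ f : Fin (73 + 1) → MvPolynomial (Fin 73) ℂ,
      (∀ j, (f j).IsHomogeneous 2) →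
      (fun i => (hilb 73 (Ideal.span (Set.range f) ^ k) i : ℤ)) ≠ Hcoeff 73 2 k := by
    intro k hk f hf heq
    have h3 := congrFun heq (2 * k + 1)
    have h4 := hilb_pos f hf k hk
    have h5 : Hcoeff 73 2 k (2 * k + 1) = 0 := by
      unfold Hcoeff
      rw [if_neg (by omega), if_neg (by omega)]
    rw [h5] at h3
    simp only [Nat.cast_eq_zero] at h3
    omega
  refine ⟨fun k hk f hf => hilb_pos f hf k hk, fun k hk => h2 k ?_, ?_⟩
  · exact le_trans Nat.one_le_two_pow hk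
  · intro h
    have hk : 2 ^ (73 - 1) ≤ 2 ^ 72 := by norm_num
    obtain ⟨f, hf, hi⟩ := h 73 2 (2 ^ 72) (by norm_num) (by norm_num) Nat.one_le_two_pow hk
      (by simp)
    exact h2 (2 ^ 72) Nat.one_le_two_pow f hf (funext hi)

end Pool.Agent.Results.MP_c355a0_ag.LongFibres
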